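import Pool.Agent.Helper5.Iso.Defs

/-!
# MP_35e092_an : pigeonhole and compactness

If `|γ|, |l| < 1` and `|γ l| > 1/2`, some power series `1 + ∑ a_n x^n` with `a_n ∈ {-1,0,1}`
vanishes at both `γ` and `l`.
-/

namespace Pool.Agent.Iso

namespace Pigeon

/-- The difference sequence of two finite sets. -/
noncomputable def dd (A B : Finset ℕ) (k : ℕ) : ℝ :=
  (if k ∈ A then (1 : ℝ) else 0) - (if k ∈ B then (1 : ℝ) else 0)

theorem dd_cases (A B : Finset ℕ) (k : ℕ) : dd A B k = -1 ∨ dd A B k = 0 ∨ dd A B k = 1 := by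
  unfold dd
  by_cases h1 : k ∈ A <;> by_cases h2 : k ∈ B <;> simp [h1, h2]

theorem dd_abs_le (A B : Finset ℕ) (k : ℕ) : |dd A B k| ≤ 1 := by
  rcases dd_cases A B k with h | h | h <;> rw [h] <;> simp

theorem summable_coeff {a : ℕ → ℝ} (ha : ∀ n, |a n| ≤ 1) {x : ℝ} (hx : |x| < 1) :
    Summable (fun n : ℕ => a n * x ^ n) := by
  refine Summable.of_norm_bounded (g := fun n : ℕ => |x| ^ n)
    (summable_geometric_of_lt_one (abs_nonneg x) hx) ?_
  intro n
  rw [Real.norm_eq_abs, abs_mul, abs_pow]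
  exact mul_le_of_le_one_left (by positivity) (ha n)

/-- The polynomial sum of a finite set. -/
noncomputable def ps (A : Finset ℕ) (x : ℝ) : ℝ := ∑ k ∈ A, x ^ k

theorem tsum_dd (A B : Finset ℕ) (x : ℝ) :
    ∑' k : ℕ, dd A B k * x ^ k = ps A x - ps B x := by
  have hA : HasSum (fun k : ℕ => (if k ∈ A then (1 : ℝ) else 0) * x ^ k) (ps A x) := by
    have h : HasSum (fun k : ℕ => (if k ∈ A then (1 : ℝ) else 0) * x ^ k)
        (∑ b ∈ A, (if b ∈ A then (1 : ℝ) else 0) * x ^ b) :=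
      hasSum_sum_of_ne_finset_zero (fun b hb => by simp [hb])
    have h2 : ∑ b ∈ A, (if b ∈ A then (1 : ℝ) else 0) * x ^ b = ps A x := by
      unfold ps
      refine Finset.sum_congr rfl ?_
      intro b hb
      simp [hb]
    rwa [h2] at h
  have hB : HasSum (fun k : ℕ => (if k ∈ B then (1 : ℝ) else 0) * x ^ k) (ps B x) := by
    have h : HasSum (fun k : ℕ => (if k ∈ B then (1 : ℝ) else 0) * x ^ k)
        (∑ b ∈ B, (if b ∈ B then (1 : ℝ) else 0) * x ^ b) :=
      hasSum_sum_of_ne_finset_zero (fun b hb => by simp [hb])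
    have h2 : ∑ b ∈ B, (if b ∈ B then (1 : ℝ) else 0) * x ^ b = ps B x := by
      unfold ps
      refine Finset.sum_congr rfl ?_
      intro b hb
      simp [hb]
    rwa [h2] at h
  have := (hA.sub hB).tsum_eq
  rw [← this]
  refine tsum_congr ?_
  intro k
  unfold dd
  ring

theorem abs_ps_le {A : Finset ℕ} {x : ℝ} (hx : |x| < 1) : |ps A x| ≤ (1 - |x|)⁻¹ := by
  unfold ps
  calc |∑ k ∈ A, x ^ k| ≤ ∑ k ∈ A, |x ^ k| := Finset.abs_sum_le_sum_abs _ _
    _ = ∑ k ∈ A, |x| ^ k := by simp [abs_pow]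
    _ ≤ ∑' k : ℕ, |x| ^ k := Summable.sum_le_tsum A (fun i _ => by positivity)
        (summable_geometric_of_lt_one (abs_nonneg x) hx)
    _ = (1 - |x|)⁻¹ := tsum_geometric_of_lt_one (abs_nonneg x) hx

/-- The cell number of a value `v` with mesh `c`. -/
theorem floor_mem {v c M : ℝ} (hc : 0 < c) (hv : |v| ≤ M) :
    ⌊v / c⌋ ∈ Finset.Icc (-⌈M / c⌉) ⌈M / c⌉ := by
  rw [Finset.mem_Icc]
  have h1 : -(M / c) ≤ v / c := by
    rw [← neg_div]
    exact div_le_div_of_nonneg_right (abs_le.1 hv).1 hc.le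
  have h2 : v / c ≤ M / c := div_le_div_of_nonneg_right (abs_le.1 hv).2 hc.le
  constructor
  · rw [Int.le_floor]
    push_cast
    have := Int.le_ceil (M / c)
    linarith
  · have h3 : (⌊v / c⌋ : ℝ) ≤ v / c := Int.floor_le _
    have h4 : M / c ≤ (⌈M / c⌉ : ℝ) := Int.le_ceil _
    exact_mod_cast (h3.trans h2).trans h4

theorem abs_sub_lt_of_floor_eq {u v c : ℝ} (hc : 0 < c) (h : ⌊u / c⌋ = ⌊v / c⌋) :
    |u - v| < c := by
  have h1 := Int.abs_sub_lt_one_of_floor_eq_floor h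
  rw [← sub_div, abs_div, abs_of_pos hc, div_lt_one hc] at h1
  exact h1

theorem card_Icc_le {M c : ℝ} (hM : 0 ≤ M) (hc : 0 < c) :
    ((Finset.Icc (-⌈M / c⌉) ⌈M / c⌉).card : ℝ) ≤ 2 * (M / c) + 3 := by
  rw [Int.card_Icc]
  have h0 : 0 ≤ M / c := by positivity
  have h1 : (0 : ℤ) ≤ ⌈M / c⌉ := Int.ceil_nonneg h0
  have h2 : (⌈M / c⌉ : ℝ) < M / c + 1 := Int.ceil_lt_add_one _
  have h3 : (((⌈M / c⌉ + 1 - -⌈M / c⌉).toNat : ℤ) : ℝ) = 2 * (⌈M / c⌉ : ℝ) + 1 := by
    rw [Int.toNat_of_nonneg (by omega)]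
    push_cast
    ring
  have h4 : (((⌈M / c⌉ + 1 - -⌈M / c⌉).toNat : ℕ) : ℝ) = 2 * (⌈M / c⌉ : ℝ) + 1 := by
    rw [← h3]
    norm_cast
  rw [h4]
  linarith

/-- Pigeonhole: two different sets with both power sums close. -/
theorem pigeon {γ l : ℝ} (hγ : |γ| < 1) (hl : |l| < 1) (h : 1 / 2 < |γ * l|) {δ : ℝ}
    (hδ : 0 < δ) :
    ∃ (n : ℕ) (A B : Finset ℕ), A ⊆ Finset.range n ∧ B ⊆ Finset.range n ∧ A ≠ B ∧
      |ps A γ - ps B γ| ≤ δ * |γ| ^ n ∧ |ps A l - ps B l| ≤ δ * |l| ^ n := by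
  have hγl : |γ * l| = |γ| * |l| := abs_mul γ l
  have hγ0 : 0 < |γ| := by
    rcases (abs_nonneg γ).lt_or_eq with h1 | h1
    · exact h1
    · rw [hγl, ← h1] at h
      norm_num at h
  have hl0 : 0 < |l| := by
    rcases (abs_nonneg l).lt_or_eq with h1 | h1
    · exact h1
    · rw [hγl, ← h1] at h
      norm_num at h
  set M1 : ℝ := (1 - |γ|)⁻¹ with hM1
  set M2 : ℝ := (1 - |l|)⁻¹ with hM2
  have hM1p : 0 < M1 := inv_pos.2 (by linarith)
  have hM2p : 0 < M2 := inv_pos.2 (by linarith)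
  set C1 : ℝ := 2 * (M1 / δ) + 3 with hC1
  set C2 : ℝ := 2 * (M2 / δ) + 3 with hC2
  have hC1p : 0 < C1 := by positivity
  have hC2p : 0 < C2 := by positivity
  have h2 : 1 < 2 * |γ * l| := by linarith
  obtain ⟨n, hn⟩ := pow_unbounded_of_one_lt (C1 * C2) h2
  refine ⟨n, ?_⟩
  have hc1 : 0 < δ * |γ| ^ n := by positivity
  have hc2 : 0 < δ * |l| ^ n := by positivity
  set I1 : Finset ℤ := Finset.Icc (-⌈M1 / (δ * |γ| ^ n)⌉) ⌈M1 / (δ * |γ| ^ n)⌉ with hI1
  set I2 : Finset ℤ := Finset.Icc (-⌈M2 / (δ * |l| ^ n)⌉) ⌈M2 / (δ * |l| ^ n)⌉ with hI2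
  have hcard1 : (I1.card : ℝ) * |γ| ^ n ≤ C1 := by
    have h3 := card_Icc_le (M := M1) (c := δ * |γ| ^ n) hM1p.le hc1
    have h4 : |γ| ^ n ≤ 1 := pow_le_one₀ (abs_nonneg _) hγ.le
    have h5 : (0 : ℝ) < |γ| ^ n := by positivity
    calc (I1.card : ℝ) * |γ| ^ n ≤ (2 * (M1 / (δ * |γ| ^ n)) + 3) * |γ| ^ n := by
          exact mul_le_mul_of_nonneg_right h3 h5.le
      _ = 2 * (M1 / δ) + 3 * |γ| ^ n := by
          field_simp
      _ ≤ C1 := by rw [hC1]; linarith
  have hcard2 : (I2.card : ℝ) * |l| ^ n ≤ C2 := by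
    have h3 := card_Icc_le (M := M2) (c := δ * |l| ^ n) hM2p.le hc2
    have h4 : |l| ^ n ≤ 1 := pow_le_one₀ (abs_nonneg _) hl.le
    have h5 : (0 : ℝ) < |l| ^ n := by positivity
    calc (I2.card : ℝ) * |l| ^ n ≤ (2 * (M2 / (δ * |l| ^ n)) + 3) * |l| ^ n := by
          exact mul_le_mul_of_nonneg_right h3 h5.le
      _ = 2 * (M2 / δ) + 3 * |l| ^ n := by
          field_simp
      _ ≤ C2 := by rw [hC2]; linarith
  have hlt : (I1 ×ˢ I2).card < (Finset.range n).powerset.card := by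
    rw [Finset.card_product, Finset.card_powerset, Finset.card_range]
    have h5 : (0 : ℝ) < |γ| ^ n := by positivity
    have h6 : (0 : ℝ) < |l| ^ n := by positivity
    have h7 : ((I1.card : ℝ) * I2.card) * (|γ| ^ n * |l| ^ n) < 2 ^ n * (|γ| ^ n * |l| ^ n) := by
      calc ((I1.card : ℝ) * I2.card) * (|γ| ^ n * |l| ^ n)
          = ((I1.card : ℝ) * |γ| ^ n) * ((I2.card : ℝ) * |l| ^ n) := by ring
        _ ≤ C1 * C2 := by
            apply mul_le_mul hcard1 hcard2 (by positivity) hC1p.le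
        _ < (2 * |γ * l|) ^ n := hn
        _ = 2 ^ n * (|γ| ^ n * |l| ^ n) := by
            rw [hγl, mul_pow, mul_pow]
    have h8 := lt_of_mul_lt_mul_right h7 (by positivity)
    exact_mod_cast h8
  obtain ⟨A, hA, B, hB, hAB, heq⟩ := Finset.exists_ne_map_eq_of_card_lt_of_maps_to hlt
    (f := fun S : Finset ℕ => (⌊ps S γ / (δ * |γ| ^ n)⌋, ⌊ps S l / (δ * |l| ^ n)⌋))
    (fun S _ => by
      simp only [Finset.coe_product, Set.mem_prod, Finset.mem_coe]
      exact ⟨floor_mem hc1 (abs_ps_le hγ), floor_mem hc2 (abs_ps_le hl)⟩)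
  refine ⟨A, B, Finset.mem_powerset.1 hA, Finset.mem_powerset.1 hB, hAB, ?_, ?_⟩
  · exact (abs_sub_lt_of_floor_eq hc1 (congrArg Prod.fst heq)).le
  · exact (abs_sub_lt_of_floor_eq hc2 (congrArg Prod.snd heq)).le

/-- Approximate common zeros. -/
theorem approx {γ l : ℝ} (hγ : |γ| < 1) (hl : |l| < 1) (h : 1 / 2 < |γ * l|) {δ : ℝ}
    (hδ : 0 < δ) : ∃ a, IsB a ∧ |ev a γ| ≤ δ ∧ |ev a l| ≤ δ := by
  have hγl : |γ * l| = |γ| * |l| := abs_mul γ l
  have hγ0 : 0 < |γ| := by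
    rcases (abs_nonneg γ).lt_or_eq with h1 | h1
    · exact h1
    · rw [hγl, ← h1] at h
      norm_num at h
  have hl0 : 0 < |l| := by
    rcases (abs_nonneg l).lt_or_eq with h1 | h1
    · exact h1
    · rw [hγl, ← h1] at h
      norm_num at h
  obtain ⟨n, A, B, hA, hB, hAB, h1, h2⟩ := pigeon hγ hl h hδ
  have hex : ∃ k, dd A B k ≠ 0 := by
    by_contra hcon
    push Not at hcon
    apply hAB
    ext k
    have := hcon k
    unfold dd at this
    by_cases h1 : k ∈ A <;> by_cases h2 : k ∈ B <;> simp_all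
  classical
  set k0 := Nat.find hex with hk0
  have hk0ne : dd A B k0 ≠ 0 := Nat.find_spec hex
  have hk0min : ∀ k < k0, dd A B k = 0 := fun k hk => by
    have := Nat.find_min hex hk
    push Not at this
    exact this
  have hk0n : k0 < n := by
    by_contra hcon
    have h3 : k0 ∉ A := fun h => hcon (Finset.mem_range.1 (hA h))
    have h4 : k0 ∉ B := fun h => hcon (Finset.mem_range.1 (hB h))
    apply hk0ne
    unfold dd
    simp [h3, h4]
  set a : ℕ → ℝ := fun k => dd A B k0 * dd A B (k + k0) with ha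
  have hsq : dd A B k0 * dd A B k0 = 1 := by
    rcases dd_cases A B k0 with h | h | h
    · rw [h]; norm_num
    · exact absurd h hk0ne
    · rw [h]; norm_num
  have haB : IsB a := by
    refine ⟨by simp [ha, hsq], fun k => ?_⟩
    simp only [ha]
    rcases dd_cases A B k0 with h | h | h
    · rcases dd_cases A B (k + k0) with h' | h' | h' <;> rw [h, h'] <;> simp
    · exact absurd h hk0ne
    · rcases dd_cases A B (k + k0) with h' | h' | h' <;> rw [h, h'] <;> simp
  have key : ∀ x : ℝ, |x| < 1 → 0 < |x| → |ps A x - ps B x| ≤ δ * |x| ^ n →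
      |ev a x| ≤ δ := by
    intro x hx hx0 hb
    have hs : Summable (fun k : ℕ => dd A B k * x ^ k) := summable_coeff (dd_abs_le A B) hx
    have h3 := hs.sum_add_tsum_nat_add k0
    have h4 : ∑ i ∈ Finset.range k0, dd A B i * x ^ i = 0 := by
      apply Finset.sum_eq_zero
      intro i hi
      rw [hk0min i (Finset.mem_range.1 hi), zero_mul]
    rw [h4, zero_add, tsum_dd] at h3
    have h5 : ∑' i : ℕ, dd A B (i + k0) * x ^ (i + k0) = x ^ k0 * (dd A B k0 * ev a x) := by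
      unfold ev
      rw [← tsum_mul_left, ← tsum_mul_left]
      refine tsum_congr ?_
      intro i
      simp only [ha]
      have : x ^ k0 * (dd A B k0 * (dd A B k0 * dd A B (i + k0) * x ^ i))
        = (dd A B k0 * dd A B k0) * (dd A B (i + k0) * (x ^ i * x ^ k0)) := by ring
      rw [this, hsq, one_mul, pow_add]
    rw [h5] at h3
    have h6 : |dd A B k0| = 1 := by
      rcases dd_cases A B k0 with h | h | h
      · rw [h]; norm_num
      · exact absurd h hk0ne
      · rw [h]; norm_num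
    rw [← h3, abs_mul, abs_mul, h6, one_mul, abs_pow] at hb
    have h7 : |x| ^ n ≤ |x| ^ k0 := pow_le_pow_of_le_one (abs_nonneg x) hx.le hk0n.le
    have h8 : 0 < |x| ^ k0 := by positivity
    have h9 : |x| ^ k0 * |ev a x| ≤ |x| ^ k0 * δ := by
      calc |x| ^ k0 * |ev a x| ≤ δ * |x| ^ n := hb
        _ ≤ δ * |x| ^ k0 := mul_le_mul_of_nonneg_left h7 hδ.le
        _ = |x| ^ k0 * δ := by ring
    exact le_of_mul_le_mul_left h9 h8
  exact ⟨a, haB, key γ hγ hγ0 h1, key l hl hl0 h2⟩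

/-- The compact set of coefficient sequences. -/
theorem isCompact_B : IsCompact {a : ℕ → ℝ | IsB a} := by
  have h : {a : ℕ → ℝ | IsB a} =
      Set.pi Set.univ (fun n : ℕ => if n = 0 then ({1} : Set ℝ) else ({-1, 0, 1} : Set ℝ)) := by
    ext a
    simp only [Set.mem_ofPred_eq, Set.mem_univ_pi]
    constructor
    · intro ha n
      by_cases hn : n = 0
      · subst hn
        simp [ha.1]
      · simp only [hn, if_false, Set.mem_insert_iff, Set.mem_singleton_iff]
        exact ha.2 n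
    · intro ha
      have h0 : a 0 = 1 := by simpa using ha 0
      refine ⟨h0, fun n => ?_⟩
      by_cases hn : n = 0
      · subst hn
        exact Or.inr (Or.inr h0)
      · have := ha n
        simpa only [hn, if_false, Set.mem_insert_iff, Set.mem_singleton_iff] using this
  rw [h]
  apply isCompact_univ_pi
  intro n
  by_cases hn : n = 0
  · simp [hn]
  · simp only [hn, if_false]
    exact (Set.toFinite _).isCompact

theorem continuousOn_ev {x : ℝ} (hx : |x| < 1) :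
    ContinuousOn (fun a : ℕ → ℝ => ev a x) {a : ℕ → ℝ | IsB a} := by
  unfold ev
  refine continuousOn_tsum (u := fun n : ℕ => |x| ^ n) ?_
    (summable_geometric_of_lt_one (abs_nonneg x) hx) ?_
  · intro n
    exact ((continuous_apply n).mul continuous_const).continuousOn
  · intro n a ha
    rw [Real.norm_eq_abs, abs_mul, abs_pow]
    exact mul_le_of_le_one_left (by positivity) (ha.abs_le n)

end Pigeon

open Pigeon in
/-- BLOCK 1 (pigeonhole + compactness). -/
theorem exists_of_half_lt {γ l : ℝ} (hγ : |γ| < 1) (hl : |l| < 1) (h : 1 / 2 < |γ * l|) :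
    ∃ a, IsB a ∧ ev a γ = 0 ∧ ev a l = 0 := by
  have hne : {a : ℕ → ℝ | IsB a}.Nonempty := by
    obtain ⟨a, ha, -⟩ := approx hγ hl h one_pos
    exact ⟨a, ha⟩
  have hcont : ContinuousOn (fun a : ℕ → ℝ => |ev a γ| + |ev a l|) {a : ℕ → ℝ | IsB a} :=
    (continuousOn_ev hγ).abs.add (continuousOn_ev hl).abs
  obtain ⟨a, ha, hmin⟩ := isCompact_B.exists_isMinOn hne hcont
  have hle : |ev a γ| + |ev a l| ≤ 0 := by
    by_contra hcon
    push Not at hcon
    obtain ⟨b, hb, hb1, hb2⟩ := approx hγ hl h (δ := (|ev a γ| + |ev a l|) / 3) (by positivity)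
    have := hmin (show b ∈ {a : ℕ → ℝ | IsB a} from hb)
    simp only [Set.mem_ofPred_eq] at this
    linarith
  have h1 : |ev a γ| = 0 := le_antisymm (by linarith [abs_nonneg (ev a l)]) (abs_nonneg _)
  have h2 : |ev a l| = 0 := le_antisymm (by linarith [abs_nonneg (ev a γ)]) (abs_nonneg _)
  exact ⟨a, ha, abs_eq_zero.1 h1, abs_eq_zero.1 h2⟩

end Pool.Agent.Iso
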